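import Pool.Agent.TH376.TC.Conj

/-!
# The absolute Hodge conjecture and singular cubic hypersurfaces

For polynomials `g_0, …, g_r` in `n` variables over `k` let `V ⊆ 𝔸^n` be the closed subscheme
`g_0 = ⋯ = g_r = 0` and let `E_g` be the hypersurface `g_0 t_0 + ⋯ + g_r t_r = 0` in
`𝔸^(n+r+1)`. The complement `U` of `V × 𝔸^(r+1)` in `E_g` is a bundle of affine spaces over
`B = 𝔸^n ∖ V` and a divisor with a global equation in `B × 𝔸^(r+1)`, so that the push-forward of its
homology to `B × 𝔸^(r+1)` is zero. The boundary map from the homology of `U` to that of
`V × 𝔸^(r+1)` factors over this push-forward. So the homology of `V × 𝔸^(r+1)` is contained in that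
of `E_g`, in all realisations, and a Hodge class on `V` is absolute if its image in the homology of
`E_g` is absolute. Smooth projective varieties are reached by the trick of Jouanolou, and the
homology of the varieties `E_g` is reached from smooth projective varieties by resolution of
singularities.
-/

set_option autoImplicit false

open CategoryTheory CategoryTheory.Limits AlgebraicGeometry Pool.Agent.TH90.Cub
  Pool.Agent.TH376.TC

namespace Pool.Agent.Results.MP_e2e4f5_ag.CubicHypersurfaces

/-- **The absolute Hodge conjecture and singular cubic hypersurfaces.** Let `S` be a set which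
contains `1` and generates the field `k`. For all `s`, `t` the following are equivalent:

(1) for all smooth projective varieties `X` over `k` all Hodge classes on `X_s` are Hodge classes
on `X_t`;

(2) the same for the homology of all varieties `X` over `k`;

(3) the same for the homology of the cubic hypersurfaces `g_0 t_0 + ⋯ + g_r t_r = 0` in affine
space, each `g_i` being one of `x_a x_b - x_c`, `x_a + x_b - x_c`, `x_a - c` with `c` in `S`. -/
theorem result {k K : Type} [Field k] [Field K] [CharZero K] (T : Conjugates k K)
    (hH : HProps T.toHMaps) (hF : T.Functorial) (hG : T.Geometric) (S : Set k)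
    (hS : Subfield.closure S = ⊤) (h1 : (1 : k) ∈ S) (s t : T.E) :
    [∀ X : Sch k, SmProj X → T.Absolute s t X,
      ∀ X : Sch k, IsVar X → T.Absolute s t X,
      ∀ (n r : ℕ) (g : Fin (r + 1) → MvPolynomial (Fin n) k), (∀ i, IsGate S (g i)) →
        T.Absolute s t (aff k (Cone g))].TFAE := by
  tfae_have 1 → 2 := T.absolute_all hG s t
  tfae_have 2 → 3 := fun h n r g _ => h _ (aff_var _ (cone_ft g))
  tfae_have 3 → 1 := (T.absolute_iff hH hF hG hS h1 s t).mpr
  tfae_finish

end Pool.Agent.Results.MP_e2e4f5_ag.CubicHypersurfaces
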