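import Pool.Agent.TH118.OR.Abh

/-!
# The absolute Hodge conjecture for products with powers of very general members of families with a
# special degeneration

Let `W` be singular cohomology with complex coefficients on the smooth projective complex varieties
(or any Weil cohomology theory with algebraically closed coefficients), `σ` an automorphism of the
complex numbers (and `ℓ` a prime number).  Let `C V j ⊂ H^(2j)(V)` be the set of the Hodge classes, and
`C' V j` the set of the Hodge classes `v` for which the conjugated class `(v^dR)_σ` (and `(v^ℓ)_σ`) is the
image of a Hodge class of `V_σ`, or the set of the absolute Hodge classes.  Twists are disregarded.
Both contain the classes of algebraic cycles and are stable under products with such classes,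
pull-backs and push-forwards (`IsClassTheory`), and `C'` is stable under sums (`StableSum`).  Q1
(respectively Q2, respectively Deligne's conjecture) for `V` and `σ` is `C V j ⊆ C' V j` for all `j`
(`Implies W C C' V`).

Let `X_i`, `i` in any set, be members of smooth projective families with parameter spaces `S_i`, and `Z`
another smooth projective variety, for instance a constant one.  Let `Γ` be the fundamental group
of the product of the `S_i` (for the infinite case: of finitely many of them at a time).  If the
parameters of the `X_i` are independent and very general then all Hodge classes on all products of
powers of the `X_i` and of `Z` are fixed by subgroups of finite index of `Γ` (`TateOnTowers`,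
with the trivial character `χ`).

Let the transcendental cohomology `T_i` of `X_i` (the orthogonal complement of the algebraic
classes) be in the middle degree and irreducible under the subgroups of finite index of `Γ`, and
let some element `g_i` of `Γ`, the loop around a point of the boundary of `S_i`, act trivially on the
cohomology of `Z` and of the other `X_j`, and on `T_i` in one of the following ways (`GoodAct`):

* dimension of `X_i` even: unipotent with one Jordan block of size three and all others of size
  one (a fibre of type III with a monodromy logarithm of rank two, for example a
  surface with a cusp singularity); or of finite order, with an eigenspace of codimension two for `1` or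
  `-1`, and two other, different eigenvalues `α` and `1 / α` (a fibre with one singularity of type
  `A_2`, the total space being smooth), and dimension of `T_i` at least five;
* dimension of `X_i` odd: unipotent, different from the identity, `(g_i - 1) ^ 2 = 0` and the rank of
  `g_i - 1` is at most two (one or two nodes); or of finite order, with small codimension or isolated
  quotients of eigenvalues (one singularity `A_{2m}`, `E_6`, `E_8`, the total space being smooth).

In the case of finite order it is assumed that some element of `Γ` has two eigenvalues on `T_i` whose
quotient is not a root of unity (otherwise a subgroup of finite index would act unipotently).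
Assume that numerical and homological equivalence coincide for `X_i` and its powers (of exponent
less than `dim T_i` if `dim X_i` is even; by the Hodge index theorem this follows from the
algebraicity of the Hodge classes on these powers).

Theorem.  Let `Y` be a product of `Z` and powers of different `X_i`, the exponent of `X_i` being less than
`dim T_i` if `dim X_i` is even.  Then Q1 (respectively Q2, Deligne's conjecture) for `Y` and `σ`
is equivalent to Q1 (respectively Q2, Deligne's conjecture) for `Z` and `σ`.  For example, it is
true for `Y` if `Z` is an abelian variety (Deligne) or a point.

For families with nodal fibres this is VeryGeneralNodalTowers of this run, in MP_c77f96_ag.  Here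
the fibres need not have nodes.
-/

universe u

namespace Pool.Agent.Results.MP_e2e4f5_ag.SpecialFibres

open Pool.Agent.H914 Pool.Agent.TH118.OR.Abh
open Pool.Agent.TH125.Abh (IsClassTheory)

/-- **Hodge classes and absolute Hodge classes on towers.** -/
theorem result {k : Type u} [Field k] {𝒱 : VarClass k} {ops : CycleOps 𝒱}
    (W : WeilCohomology.{u, 0} ops) [IsAlgClosed W.K] {Γ : Type} [Group Γ] (χ : Chr W Γ)
    {ι : Type} (X : ι → AVar W Γ) (Z : AVar W Γ) (h : GoodPowers χ X Z)
    (C C' : ∀ V : 𝒱.Obj, ℕ → Set (W.H V)) (hC : IsClassTheory W C)
    (hT : TateOnTowers χ X Z C) (hC' : IsClassTheory W C') (hs : StableSum W C')
    (S : Set ι) (Y : AVar W Γ) (hY : ATower X Z S Y) :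
    Implies W C C' Y.X ↔ Implies W C C' Z.X :=
  tower_implies h hC hC' hs hT hY

end Pool.Agent.Results.MP_e2e4f5_ag.SpecialFibres
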